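import Pool.Agent.W201.NT.StmT

/-! NT-BR: the explicit singular homology agrees with Mathlib's, for any coefficient ring. -/

set_option autoImplicit false

namespace Pool.Agent.W885.NT

open CategoryTheory AlgebraicTopology Simplicial Opposite Limits
open Pool.Agent.Helper381 Pool.Agent.W201.NT

noncomputable section

variable (R : Type) [CommRing R]

/-- coefficients -/
abbrev FF : ModuleCat.{0} R := ModuleCat.of R R

/-- the singular set of a space -/
abbrev SS (X : Type) [TopologicalSpace X] : SSet.{0} := TopCat.toSSet.obj (TopCat.of X)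

/-- the singular chain complex -/
abbrev KK (X : Type) [TopologicalSpace X] : ChainComplex (ModuleCat.{0} R) ℕ :=
  (SS X).chainComplex (FF R)

/-- simplices of the singular set -/
def eqv (X : Type) [TopologicalSpace X] (n : ℕ) : Sing X n ≃ (SS X) _⦋n⦌ :=
  ((TopCat.of X).toSSetObjEquiv (op ⦋n⦌)).symm

/-- basis elements of the chain complex -/
def bas {X : Type} [TopologicalSpace X] {n : ℕ} (σ : Sing X n) : (KK R X).X n :=
  ((SS X).ιChainComplex (R := FF R) (eqv X n σ)).hom (1 : R)

/-- from explicit chains to Mathlib chains -/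
def toC (X : Type) [TopologicalSpace X] (n : ℕ) : (Sing X n →₀ R) →ₗ[R] (KK R X).X n :=
  Finsupp.linearCombination R (bas R)

/-- from Mathlib chains to explicit chains -/
def ofC (X : Type) [TopologicalSpace X] (n : ℕ) :
    (KK R X).X n ⟶ ModuleCat.of R (Sing X n →₀ R) :=
  Sigma.desc (fun x => ModuleCat.ofHom (Finsupp.lsingle ((eqv X n).symm x)))

theorem ofC_toC {X : Type} [TopologicalSpace X] {n : ℕ} (c : Sing X n →₀ R) :
    (ofC R X n).hom (toC R X n c) = c := by
  have h : (ofC R X n).hom ∘ₗ (toC R X n) = LinearMap.id := by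
    refine Finsupp.lhom_ext' fun σ => LinearMap.ext_ring ?_
    simp only [LinearMap.comp_apply, Finsupp.lsingle_apply, LinearMap.id_apply]
    rw [toC, Finsupp.linearCombination_single, one_smul, bas, ← ModuleCat.comp_apply]
    have h2 : (SS X).ιChainComplex (R := FF R) (eqv X n σ) ≫ ofC R X n =
        ModuleCat.ofHom (Finsupp.lsingle ((eqv X n).symm (eqv X n σ))) := by
      exact Sigma.ι_desc _ _
    rw [h2, Equiv.symm_apply_apply]
    rfl
  exact LinearMap.congr_fun h c

theorem toC_ofC {X : Type} [TopologicalSpace X] {n : ℕ} (y : (KK R X).X n) :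
    toC R X n ((ofC R X n).hom y) = y := by
  have h : ofC R X n ≫ ModuleCat.ofHom (toC R X n) = 𝟙 _ := by
    refine SSet.chainComplex_hom_ext ?_
    intro x
    have h2 : (SS X).ιChainComplex (R := FF R) x ≫ ofC R X n =
        ModuleCat.ofHom (Finsupp.lsingle ((eqv X n).symm x)) := Sigma.ι_desc _ _
    rw [← Category.assoc, h2, Category.comp_id]
    apply ModuleCat.hom_ext
    refine LinearMap.ext_ring ?_
    show toC R X n (Finsupp.lsingle ((eqv X n).symm x) (1 : R)) = _
    rw [Finsupp.lsingle_apply, toC, Finsupp.linearCombination_single, one_smul, bas,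
      Equiv.apply_symm_apply]
  exact ConcreteCategory.congr_hom h y

/-- the equivalence is compatible with faces -/
theorem eqv_face {X : Type} [TopologicalSpace X] {n : ℕ} (i : Fin (n + 2)) (σ : Sing X (n + 1)) :
    (SS X).δ i (eqv X (n + 1) σ) = eqv X n (sface n i σ) := by
  exact TopCat.toSSetObjEquiv_symm_naturality (X := TopCat.of X) (SimplexCategory.δ i) σ

theorem d_toC {X : Type} [TopologicalSpace X] {n : ℕ} (c : Sing X (n + 1) →₀ R) :
    ((KK R X).d (n + 1) n).hom (toC R X (n + 1) c) = toC R X n (bdR R X n c) := by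
  have h : ((KK R X).d (n + 1) n).hom ∘ₗ toC R X (n + 1) = toC R X n ∘ₗ bdR R X n := by
    refine Finsupp.lhom_ext' fun σ => LinearMap.ext_ring ?_
    simp only [LinearMap.comp_apply, Finsupp.lsingle_apply]
    rw [bdR_single, toC, Finsupp.linearCombination_single, one_smul, bas,
      map_sum, ← ModuleCat.comp_apply, SSet.ιChainComplex_d]
    change (ModuleCat.Hom.hom (∑ i : Fin (n + 2), (-1 : ℤ) ^ i.val •
      (SS X).ιChainComplex (R := FF R) ((SS X).δ i (eqv X (n + 1) σ)) :
        FF R ⟶ (KK R X).X n)) (1 : R) = _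
    rw [ModuleCat.hom_sum, LinearMap.sum_apply]
    refine Finset.sum_congr rfl fun i _ => ?_
    rw [map_smul, toC, Finsupp.linearCombination_single, one_smul, bas, ← eqv_face]
    rcases neg_one_pow_eq_or ℤ i.val with h | h
    · have h' : (-1 : R) ^ i.val = 1 := by
        have := congrArg (Int.cast : ℤ → R) h
        simpa using this
      rw [h, h', one_smul, one_smul]
    · have h' : (-1 : R) ^ i.val = -1 := by
        have := congrArg (Int.cast : ℤ → R) h
        simpa using this
      rw [h, h', neg_smul, one_smul, neg_smul, one_smul, ModuleCat.hom_neg, LinearMap.neg_apply]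
  exact LinearMap.congr_fun h c

/-- the linear equivalence of chains -/
def ceq (X : Type) [TopologicalSpace X] (n : ℕ) : (Sing X n →₀ R) ≃ₗ[R] (KK R X).X n :=
  LinearEquiv.ofLinear (toC R X n) (ofC R X n).hom
    (LinearMap.ext fun y => toC_ofC R y) (LinearMap.ext fun c => ofC_toC R c)

theorem ceq_apply {X : Type} [TopologicalSpace X] {n : ℕ} (c : Sing X n →₀ R) :
    ceq R X n c = toC R X n c := rfl

/-- the short complex -/
abbrev SC (X : Type) [TopologicalSpace X] (n : ℕ) : ShortComplex (ModuleCat.{0} R) :=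
  (KK R X).sc' (n + 1) n ((ComplexShape.down ℕ).next n)

theorem mem_cyc_iff (X : Type) [TopologicalSpace X] (n : ℕ) (c : Sing X n →₀ R) :
    c ∈ Cyc R X n ↔ toC R X n c ∈
      LinearMap.ker ((KK R X).d n ((ComplexShape.down ℕ).next n)).hom := by
  rw [LinearMap.mem_ker]
  cases n with
  | zero =>
    rw [HomologicalComplex.shape _ _ _ (by simp)]
    constructor
    · intro _; rfl
    · intro _; trivial
  | succ m =>
    have h3 : (ComplexShape.down ℕ).next (m + 1) = m := by simp
    rw [h3, d_toC]
    constructor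
    · intro h
      have h' : bdR R X m c = 0 := h
      rw [h', map_zero]
    · intro h
      have h' : ceq R X m (bdR R X m c) = 0 := h
      have h'' : bdR R X m c = 0 := (LinearEquiv.map_eq_zero_iff _).mp h'
      exact h''

/-- the equivalence on cycles -/
def cycEq (X : Type) [TopologicalSpace X] (n : ℕ) :
    ↥(Cyc R X n) ≃ₗ[R] ↥(LinearMap.ker ((KK R X).d n ((ComplexShape.down ℕ).next n)).hom) :=
  LinearEquiv.ofSubmodules (ceq R X n) (Cyc R X n)
    (LinearMap.ker ((KK R X).d n ((ComplexShape.down ℕ).next n)).hom) (by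
    ext y
    constructor
    · rintro ⟨c, hc, rfl⟩
      exact (mem_cyc_iff R X n c).mp hc
    · intro hy
      refine ⟨(ofC R X n).hom y, ?_, toC_ofC R y⟩
      apply (mem_cyc_iff R X n _).mpr
      rw [toC_ofC]
      exact hy)

theorem range_aux (X : Type) [TopologicalSpace X] (n : ℕ) (z : (KK R X).X (n + 1))
    (w : ↥(Cyc R X n)) (h : (cycEq R X n w).1 = ((KK R X).d (n + 1) n).hom z) :
    ∃ b, bdR R X n b = w.1 := by
  refine ⟨(ofC R X (n + 1)).hom z, ?_⟩
  apply (ceq R X n).injective
  show toC R X n (bdR R X n ((ofC R X (n + 1)).hom z)) = toC R X n w.1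
  rw [← d_toC, toC_ofC]
  exact h.symm

theorem main : S_BR := by
  intro R _ X _ n
  -- Mathlib homology
  have hprev : (ComplexShape.down ℕ).prev n = n + 1 := by simp
  have e1 : MH R X n ≃ₗ[R]
      (↥(LinearMap.ker (SC R X n).g.hom) ⧸ LinearMap.range (SC R X n).moduleCatToCycles) :=
    ((KK R X).homologyIsoSc' (n + 1) n ((ComplexShape.down ℕ).next n) hprev rfl ≪≫
      (SC R X n).moduleCatHomologyIso).toLinearEquiv
  refine ⟨(Submodule.Quotient.equiv _ _ (cycEq R X n) ?_).trans e1.symm⟩
  ext y
  constructor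
  · rintro ⟨c, hc, rfl⟩
    obtain ⟨b, hb⟩ := hc
    refine ⟨toC R X (n + 1) b, ?_⟩
    apply Subtype.ext
    show ((KK R X).d (n + 1) n).hom (toC R X (n + 1) b) = toC R X n c.1
    rw [d_toC, hb]
    rfl
  · rintro ⟨z, rfl⟩
    refine ⟨(cycEq R X n).symm ((SC R X n).moduleCatToCycles z), ?_, ?_⟩
    · obtain ⟨b, hb⟩ := range_aux R X n z ((cycEq R X n).symm ((SC R X n).moduleCatToCycles z))
        (congrArg Subtype.val (LinearEquiv.apply_symm_apply (cycEq R X n)
          ((SC R X n).moduleCatToCycles z)))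
      exact ⟨b, hb⟩
    · exact LinearEquiv.apply_symm_apply _ _

end

end Pool.Agent.W885.NT
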